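import Pool.Agent.Helper5.RO.Goals
import Pool.Agent.Helper29.GC.Chord

/-!
# Project RO (MP_a41896_nt), packet LK: local estimate for one coordinate
-/

set_option autoImplicit false

namespace Pool.Agent.Helper56.RO

open WeierstrassCurve Height Height.AdmissibleAbsValues
open Pool.Agent.Helper29.BL Pool.Agent.Helper29.GC Pool.Agent.Helper5.RO

noncomputable section

/-- evaluation bound -/
theorem evP {K : Type} [Field K] [AdmissibleAbsValues K] (N : ℕ) (p : Polynomial K)
    (hp : p.natDegree ≤ N) : ∃ c : AbsoluteValue K ℝ → ℝ, FS c ∧ (∀ v, 0 ≤ c v) ∧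
      ∀ v (x : K), v (p.eval x) ≤ Real.exp (c v) * Mv v x ^ N := by
  classical
  have h1 : (1 : ℝ) ≤ (N : ℝ) + 1 := by
    have : (0 : ℝ) ≤ (N : ℝ) := Nat.cast_nonneg _
    linarith
  refine ⟨fun v => Real.log (cst v (N + 1)) +
    ∑ m ∈ Finset.range (N + 1), Real.posLog (v (p.coeff m)), ?_, ?_, ?_⟩
  · exact (FS_log_cst _).add (FS.sum _ fun m _ => FS_posLog _)
  · intro v
    exact add_nonneg (Real.log_nonneg (one_le_cst v h1))
      (Finset.sum_nonneg fun _ _ => Real.posLog_nonneg)
  · intro v x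
    rw [Real.exp_add, Real.exp_log (cst_pos v h1), Polynomial.eval_eq_sum_range' (n := N + 1)
      (by omega)]
    have hM := Mv_pos v x
    set E := Real.exp (∑ m ∈ Finset.range (N + 1), Real.posLog (v (p.coeff m))) with hE
    rw [mul_assoc]
    refine abv_sum_le v _ _ (by positivity) (fun m hm => ?_) (by simp)
    rw [map_mul]
    refine mul_le_mul ?_ ?_ (v.nonneg _) (Real.exp_pos _).le
    · have h2 : Real.posLog (v (p.coeff m)) ≤
          ∑ m ∈ Finset.range (N + 1), Real.posLog (v (p.coeff m)) :=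
        Finset.single_le_sum (f := fun m => Real.posLog (v (p.coeff m)))
          (fun _ _ => Real.posLog_nonneg) hm
      have h3 : v (p.coeff m) ≤ Real.exp (Real.posLog (v (p.coeff m))) := by
        rcases eq_or_lt_of_le (v.nonneg (p.coeff m)) with h0 | h0
        · rw [← h0]; exact (Real.exp_pos _).le
        · conv_lhs => rw [← Real.exp_log h0]
          exact Real.exp_le_exp.2 (le_max_right _ _)
      exact h3.trans (Real.exp_le_exp.2 h2)
    · rw [map_pow]
      have h4 : m ≤ N := by
        rw [Finset.mem_range] at hm; omega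
      calc v x ^ m ≤ Mv v x ^ m := pow_le_pow_left₀ (v.nonneg _) (le_max_right _ _) _
        _ ≤ Mv v x ^ N := pow_le_pow_right₀ (one_le_Mv v _) h4

/-- the Gauss estimate -/
theorem gauss {K : Type} [Field K] (v : AbsoluteValue K ℝ) {W : Affine K} (P Q : W.Point) :
    ∃ j, Mv v (xc P) * Mv v (xc Q) ≤ cst v 2 * v (P.sym2x Q j) := by
  have hc := one_le_cst v (c := 2) (by norm_num)
  have hone : ∀ x : K, ∃ j : Fin 3, Mv v x ≤ cst v 2 * v ((![x, 1, 0] : Fin 3 → K) j) := by
    intro x
    rcases le_total (v x) 1 with h | h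
    · refine ⟨1, ?_⟩
      have : Mv v x = 1 := max_eq_left h
      rw [this]
      simpa using hc
    · refine ⟨0, ?_⟩
      have : Mv v x = v x := max_eq_right h
      rw [this]
      simp only [Matrix.cons_val_zero]
      nlinarith
  rcases P with _ | ⟨x, y, h⟩
  · rcases Q with _ | ⟨x', y', h'⟩
    · refine ⟨0, ?_⟩
      simp only [← Affine.Point.zero_def, xc_zero, Affine.Point.sym2x_zero_zero,
        Matrix.cons_val_zero, map_one, mul_one]
      have : Mv v (0 : K) = 1 := by
        rw [Mv, map_zero]; exact max_eq_left zero_le_one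
      rw [this]
      linarith
    · obtain ⟨j, hj⟩ := hone x'
      refine ⟨j, ?_⟩
      simp only [← Affine.Point.zero_def, xc_zero, xc_some, Affine.Point.sym2x_zero_some]
      have : Mv v (0 : K) = 1 := by
        rw [Mv, map_zero]; exact max_eq_left zero_le_one
      rw [this, one_mul]
      exact hj
  · rcases Q with _ | ⟨x', y', h'⟩
    · obtain ⟨j, hj⟩ := hone x
      refine ⟨j, ?_⟩
      simp only [← Affine.Point.zero_def, xc_zero, xc_some, Affine.Point.sym2x_some_zero]
      have : Mv v (0 : K) = 1 := by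
        rw [Mv, map_zero]; exact max_eq_left zero_le_one
      rw [this, mul_one]
      exact hj
    · have h1 := Mv_mul_le v x x'
      simp only [xc_some, Affine.Point.sym2x_some_some]
      rcases le_total (max (v (x + x')) (v (x * x'))) 1 with h2 | h2
      · refine ⟨2, ?_⟩
        rw [max_eq_left h2] at h1
        simpa using h1
      · rw [max_eq_right h2] at h1
        rcases le_total (v (x + x')) (v (x * x')) with h3 | h3
        · refine ⟨0, ?_⟩
          rw [max_eq_right h3] at h1
          simpa using h1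
        · refine ⟨1, ?_⟩
          rw [max_eq_left h3] at h1
          simpa using h1

/-- bound for `asm` -/
theorem asm_le {K : Type} [Field K] (v : AbsoluteValue K ℝ) (W : Affine K) (u : Fin 3 → K) (V : ℝ)
    (hV : ∀ j, v (u j) ≤ V) (j : Fin 3) :
    v (asm (RingHom.id K) W u j) ≤ cst v 8 * (bet W v * V ^ 2) := by
  have hV0 : 0 ≤ V := (v.nonneg _).trans (hV 0)
  have hb1 := one_le_bet W v
  have hb2 : v W.b₂ ≤ bet W v := (le_max_left _ _).trans (le_max_right _ _)
  have hb4 : v W.b₄ ≤ bet W v :=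
    ((le_max_left _ _).trans (le_max_right _ _)).trans (le_max_right _ _)
  have hb6 : v W.b₆ ≤ bet W v :=
    (((le_max_left _ _).trans (le_max_right _ _)).trans (le_max_right _ _)).trans (le_max_right _ _)
  have hb8 : v W.b₈ ≤ bet W v :=
    (((le_max_right _ _).trans (le_max_right _ _)).trans (le_max_right _ _)).trans (le_max_right _ _)
  set Q := bet W v * V ^ 2 with hQ
  have hp : ∀ i k, v (u i * u k) ≤ V ^ 2 := by
    intro i k
    rw [map_mul, sq]
    exact mul_le_mul (hV i) (hV k) (v.nonneg _) hV0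
  have hp1 : ∀ i k, v (u i * u k) ≤ Q := by
    intro i k
    refine (hp i k).trans ?_
    rw [hQ]
    nlinarith [sq_nonneg V]
  have hp2 : ∀ (b : K) (i k : Fin 3), v b ≤ bet W v → v (b * (u i * u k)) ≤ Q := by
    intro b i k hb
    rw [map_mul]
    exact mul_le_mul hb (hp i k) (v.nonneg _) (by linarith)
  have hQ0 : 0 ≤ Q := (v.nonneg _).trans (hp1 0 0)
  have hc2 := one_le_cst v (c := 2) (by norm_num)
  have hc8 : cst v 8 = cst v 2 * (cst v 2 * cst v 2) := by
    rw [← cst_mul, ← cst_mul]; norm_num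
  rw [hc8]
  have hC : 0 ≤ cst v 2 * Q := by positivity
  have hC2 : 0 ≤ cst v 2 * (cst v 2 * Q) := by positivity
  have hQle : Q ≤ cst v 2 * Q := by nlinarith
  have hQle2 : cst v 2 * Q ≤ cst v 2 * (cst v 2 * Q) := by nlinarith
  have hQle3 : cst v 2 * (cst v 2 * Q) ≤ cst v 2 * (cst v 2 * (cst v 2 * Q)) := by nlinarith
  have e8 : cst v 2 * (cst v 2 * cst v 2) * Q = cst v 2 * (cst v 2 * (cst v 2 * Q)) := by ring
  rw [e8]
  fin_cases j
  · have e : asm (RingHom.id K) W u 0 = (u 0 * u 0 - W.b₄ * (u 0 * u 2)) -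
        (W.b₆ * (u 1 * u 2) + W.b₈ * (u 2 * u 2)) := by
      simp only [asm, Matrix.cons_val_zero, RingHom.id_apply]
      ring
    change v (asm (RingHom.id K) W u 0) ≤ _
    rw [e]
    refine (abv_sub_le v _ _ (B := cst v 2 * Q) ?_ ?_).trans hQle3
    · exact abv_sub_le v _ _ (hp1 0 0) (hp2 _ 0 2 hb4)
    · exact abv_add_le v _ _ (hp2 _ 1 2 hb6) (hp2 _ 2 2 hb8)
  · have e : asm (RingHom.id K) W u 1 = ((u 1 * u 0 + u 1 * u 0) +
        (W.b₂ * (u 0 * u 2) + W.b₄ * (u 1 * u 2))) + W.b₆ * (u 2 * u 2) := by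
      simp only [asm, Matrix.cons_val_one, Matrix.cons_val_zero, RingHom.id_apply]
      ring
    change v (asm (RingHom.id K) W u 1) ≤ _
    rw [e]
    refine abv_add_le v _ _ (B := cst v 2 * (cst v 2 * Q)) ?_ ?_
    · refine abv_add_le v _ _ (B := cst v 2 * Q) ?_ ?_
      · exact abv_add_le v _ _ (hp1 1 0) (hp1 1 0)
      · exact abv_add_le v _ _ (hp2 _ 0 2 hb2) (hp2 _ 1 2 hb4)
    · exact (hp2 _ 2 2 hb6).trans (hQle.trans hQle2)
  · have e : asm (RingHom.id K) W u 2 = ((u 1 * u 1 - u 0 * u 2) -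
        (u 0 * u 2 + u 0 * u 2)) - u 0 * u 2 := by
      simp [asm]
      ring
    change v (asm (RingHom.id K) W u 2) ≤ _
    rw [e]
    refine abv_sub_le v _ _ (B := cst v 2 * (cst v 2 * Q)) ?_ ?_
    · refine abv_sub_le v _ _ (B := cst v 2 * Q) ?_ ?_
      · exact abv_sub_le v _ _ (hp1 1 1) (hp1 0 2)
      · exact abv_add_le v _ _ (hp1 0 2) (hp1 0 2)
    · exact (hp1 0 2).trans (hQle.trans hQle2)

theorem gLK : G_LK := by
  intro K _ _ _ W m A B hAB
  obtain ⟨cA, hA1, hA2, hA3⟩ := evP (m ^ 2) A hAB.degA.le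
  obtain ⟨cB, hB1, hB2, hB3⟩ := evP (m ^ 2) B
    (Polynomial.natDegree_le_of_degree_le hAB.degB.le)
  refine ⟨fun v => (Real.log (cst v 2) + Real.log (cst v 8)) + Real.log (bet W v) +
    2 * (Real.log (cst v 2) + (cA v + cB v)), ?_, ?_, ?_⟩
  · exact (((FS_log_cst 2).add (FS_log_cst 8)).add (FS_log_bet W)).add
      (((FS_log_cst 2).add (hA1.add hB1)).const_mul 2)
  · intro v
    have h1 := Real.log_nonneg (one_le_cst v (c := 2) (by norm_num))
    have h2 := Real.log_nonneg (one_le_cst v (c := 8) (by norm_num))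
    have h3 := Real.log_nonneg (one_le_bet W v)
    have := hA2 v
    have := hB2 v
    positivity
  · intro v w b κ _ _ hj
    have h2 := one_le_cst v (c := 2) (by norm_num)
    have h8 := one_le_cst v (c := 8) (by norm_num)
    have hbt := one_le_bet W v
    set T := Mv v (xc w) ^ (m ^ 2) with hT
    have hT0 : 0 < T := pow_pos (Mv_pos v _) _
    have hb0 := Mv_pos v (xc b)
    have hb1 := one_le_Mv v (xc b)
    set Y := Real.exp (cA v + cB v) * (T * Mv v (xc b)) with hY
    have hEA : Real.exp (cA v) ≤ Real.exp (cA v + cB v) := Real.exp_le_exp.2 (by linarith [hB2 v])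
    have hEB : Real.exp (cB v) ≤ Real.exp (cA v + cB v) := Real.exp_le_exp.2 (by linarith [hA2 v])
    have hE0 := Real.exp_pos (cA v + cB v)
    have ha : v (A.eval (xc w)) ≤ Real.exp (cA v + cB v) * T :=
      (hA3 v _).trans (mul_le_mul_of_nonneg_right hEA hT0.le)
    have hb : v (B.eval (xc w)) ≤ Real.exp (cA v + cB v) * T :=
      (hB3 v _).trans (mul_le_mul_of_nonneg_right hEB hT0.le)
    have hYe : Y = Real.exp (cA v + cB v) * T * Mv v (xc b) := by rw [hY]; ring
    have hY1 : Real.exp (cA v + cB v) * T ≤ Y := by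
      rw [hYe]
      exact le_mul_of_one_le_right (by positivity) hb1
    have hY0 : 0 ≤ Y := by rw [hYe]; positivity
    have hab : v (A.eval (xc w) * xc b) ≤ Y := by
      rw [map_mul, hYe]
      exact mul_le_mul ha (le_Mv v _) (v.nonneg _) (by positivity)
    have hbb : v (B.eval (xc w) * xc b) ≤ Y := by
      rw [map_mul, hYe]
      exact mul_le_mul hb (le_Mv v _) (v.nonneg _) (by positivity)
    have hV : ∀ j, v (sy ![A.eval (xc w), B.eval (xc w)] ![xc b, 1] j) ≤ cst v 2 * Y := by
      have hYle : Y ≤ cst v 2 * Y := by nlinarith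
      intro j
      fin_cases j
      · simpa [sy] using hab.trans hYle
      · have h3 : v (A.eval (xc w) + B.eval (xc w) * xc b) ≤ cst v 2 * Y :=
          abv_add_le v _ _ (ha.trans hY1) hbb
        simpa [sy] using h3
      · simpa [sy] using (hb.trans hY1).trans hYle
    obtain ⟨j, hg⟩ := gauss v (m • w + b) (m • w - b)
    have h3 := asm_le v W _ _ hV j
    rw [hj j, map_mul] at h3
    have h4 : v κ * (Mv v (xc (m • w + b)) * Mv v (xc (m • w - b))) ≤
        cst v 2 * (cst v 8 * (bet W v * (cst v 2 * Y) ^ 2)) := by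
      calc v κ * (Mv v (xc (m • w + b)) * Mv v (xc (m • w - b)))
          ≤ v κ * (cst v 2 * v ((m • w + b).sym2x (m • w - b) j)) :=
            mul_le_mul_of_nonneg_left hg (v.nonneg _)
        _ = cst v 2 * (v κ * v ((m • w + b).sym2x (m • w - b) j)) := by ring
        _ ≤ _ := mul_le_mul_of_nonneg_left h3 (by linarith)
    refine h4.trans (le_of_eq ?_)
    have e1 : Real.exp ((Real.log (cst v 2) + Real.log (cst v 8)) + Real.log (bet W v) +
        2 * (Real.log (cst v 2) + (cA v + cB v))) = cst v 2 * cst v 8 * bet W v *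
        (cst v 2 * Real.exp (cA v + cB v)) ^ 2 := by
      rw [Real.exp_add, Real.exp_add, Real.exp_add, Real.exp_log (by linarith),
        Real.exp_log (by linarith), Real.exp_log (by linarith), two_mul, Real.exp_add,
        Real.exp_add (Real.log (cst v 2)), Real.exp_log (by linarith)]
      ring
    rw [e1, hY]
    ring

end

end Pool.Agent.Helper56.RO
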